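import Pool.Agent.LPR.Stmts

/-! Squad LPR, row LGL: hereditarily stable neighbourhoods suffice. -/

set_option autoImplicit false

open Set Topology

namespace Pool.Agent.LPR.H46

open Pool.Agent.LSG Pool.Agent.LPR

theorem lgl (hUNI : UniStmt) (hDJU : DjuStmt) (hMIC : MicStmt) : LglStmt := by
  intro X _ _ h
  have key := hMIC X (fun O => ∀ O' : Set X, O' ⊆ O → IsOpen O' → Stb O')
    (by
      intro O O' _ hP hsub _ O'' hs ho
      exact hP O'' (hs.trans hsub) ho)
    (by
      intro O O' hO hO' hP hP' O'' hs ho
      have e : O'' = (O'' ∩ O) ∪ (O'' ∩ O') := by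
        rw [← Set.inter_union_distrib_left, Set.inter_eq_left.mpr hs]
      rw [e]
      exact hUNI X _ _ (ho.inter hO) (ho.inter hO')
        (hP _ Set.inter_subset_right (ho.inter hO)) (hP' _ Set.inter_subset_right (ho.inter hO')))
    (by
      intro I O hO hd hl hP O'' hs ho
      have e : O'' = ⋃ i, O'' ∩ O i := by
        rw [← Set.inter_iUnion, Set.inter_eq_left.mpr hs]
      rw [e]
      exact hDJU X I (fun i => O'' ∩ O i) (fun i => ho.inter (hO i))
        (fun i j hij => (hd i j hij).mono Set.inter_subset_right Set.inter_subset_right)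
        (hl.subset (fun i => Set.inter_subset_right))
        (fun i => hP i _ Set.inter_subset_right (ho.inter (hO i))))
    h
  exact key Set.univ (Set.Subset.refl _) isOpen_univ

end Pool.Agent.LPR.H46
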